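import Pool.Agent.Q93.CPP.Tuple

/-!
Certificates, products, and extension.
-/

set_option autoImplicit false

namespace Q93.CPP

open Matrix
open scoped ComplexOrder ComplexConjugate InnerProductSpace
open Pool.Agent.Results.MP_e3a8c8_an.ShimorinCertificates
open Pool.Agent.H770R3.Shim

universe u

variable {X : Type u}

/-- a certificate at each point -/
def Cert (k l : Matrix X X ℂ) : Prop :=
  ∀ z, ∃ p : Matrix X X ℂ, p.PosSemidef ∧ (red l z - p ⊙ l).PosSemidef ∧
      (p ⊙ k - red k z).PosSemidef

/-- the reduced kernel is positive -/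
lemma red_psd {g : Matrix X X ℂ} (hg : g.PosSemidef) (z : X) : (red g z).PosSemidef := by
  classical
  refine psd_of_sum (fun x y => red_herm hg z x y) fun F c => ?_
  -- remove `z` from `F`
  set F' := F.erase z with hF'
  have hz : z ∉ F' := Finset.notMem_erase z F
  have h1 : (∑ i ∈ F, ∑ j ∈ F, conj (c i) * red g z i j * c j) =
      ∑ i ∈ F', ∑ j ∈ F', conj (c i) * red g z i j * c j := by
    rw [← Finset.sum_subset (Finset.erase_subset z F)]
    · refine Finset.sum_congr rfl fun i _ => ?_
      rw [← Finset.sum_subset (Finset.erase_subset z F)]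
      intro j hj hj'
      have : j = z := by
        by_contra h
        exact hj' (Finset.mem_erase.2 ⟨h, hj⟩)
      rw [this, red_zero_col hg]
      ring
    · intro i hi hi'
      have : i = z := by
        by_contra h
        exact hi' (Finset.mem_erase.2 ⟨h, hi⟩)
      rw [this]
      exact Finset.sum_eq_zero fun j _ => by rw [red_zero_row hg]; ring
  rw [h1]
  -- use `Q` with `N = 1`
  let h : X → E 1 := fun x => WithLp.toLp 2 fun _ => c x
  let h' : X → E 1 := Function.update h z (-∑ j ∈ F', (g z j / g z z) • h j)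
  have hne : ∀ i ∈ F', i ≠ z := fun i hi e => hz (e ▸ hi)
  have e1 := Q_insert hg hz h'
  have e2 : Q (red g z) F' h' = Q (red g z) F' h :=
    Q_congr _ fun i hi => by simp only [h', Function.update_of_ne (hne i hi)]
  have e3 : h' z + ∑ j ∈ F', (g z j / g z z) • h' j = 0 := by
    have : ∑ j ∈ F', (g z j / g z z) • h' j = ∑ j ∈ F', (g z j / g z z) • h j :=
      Finset.sum_congr rfl fun j hj => by simp only [h', Function.update_of_ne (hne j hj)]
    rw [this]
    simp [h']
  rw [e2, e3, norm_zero] at e1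
  have e4 := Q_nonneg hg (insert z F') h'
  rw [e1] at e4
  have e5 : Q (red g z) F' h = (∑ i ∈ F', ∑ j ∈ F', conj (c i) * red g z i j * c j).re := by
    unfold Q
    congr 1
    refine Finset.sum_congr rfl fun i _ => Finset.sum_congr rfl fun j _ => ?_
    have : ⟪h i, h j⟫_ℂ = conj (c i) * c j := by
      rw [EuclideanSpace.inner_eq_star_dotProduct]
      simp [h, dotProduct, mul_comm]
    rw [this]; ring
  rw [← e5]
  simpa using e4

lemma rankOne_psd {g : Matrix X X ℂ} (hg : g.PosSemidef) (z : X) :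
    (Matrix.of fun x y => g x z * g z y / g z z : Matrix X X ℂ).PosSemidef := by
  refine psd_of_sum (fun x y => ?_) fun F c => ?_
  · simp only [Matrix.of_apply, map_div₀, map_mul, psd_herm hg]
    ring
  · have e : (∑ i ∈ F, ∑ j ∈ F, conj (c i) *
        (Matrix.of fun x y => g x z * g z y / g z z : Matrix X X ℂ) i j * c j) =
        (((g z z).re)⁻¹ : ℝ) * (conj (∑ j ∈ F, g z j * c j) * ∑ j ∈ F, g z j * c j) := by
      rw [map_sum, Finset.sum_mul_sum, Finset.mul_sum]
      refine Finset.sum_congr rfl fun i _ => ?_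
      rw [Finset.mul_sum]
      refine Finset.sum_congr rfl fun j _ => ?_
      rw [Matrix.of_apply, map_mul, psd_herm hg, psd_diag_eq hg z]
      push_cast
      simp only [Complex.ofReal_re]
      rw [div_eq_mul_inv]
      ring
    rw [e, Complex.re_ofReal_mul, ← Complex.normSq_eq_conj_mul_self, Complex.ofReal_re]
    exact mul_nonneg (inv_nonneg.2 (psd_diag_re hg z)) (Complex.normSq_nonneg _)

lemma cert_mul {k l h : Matrix X X ℂ} (hl : l.PosSemidef) (hh : h.PosSemidef)
    (hc : Cert k l) : Cert k (l ⊙ h) := by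
  intro z
  obtain ⟨p, hp, h1, h2⟩ := hc z
  refine ⟨p, hp, ?_, h2⟩
  have e : red (l ⊙ h) z - p ⊙ (l ⊙ h) = (red l z - p ⊙ l) ⊙ h +
      (Matrix.of fun x y => l x z * l z y / l z z : Matrix X X ℂ) ⊙ red h z := by
    ext x y
    simp only [red, Matrix.sub_apply, Matrix.add_apply, Matrix.hadamard_apply, Matrix.of_apply]
    have : l x z * h x z * (l z y * h z y) / (l z z * h z z) =
        (l x z * l z y / l z z) * (h x z * h z y / h z z) := by
      rw [div_mul_div_comm]
      ring
    rw [this]
    ring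
  rw [e]
  exact (h1.hadamard hh).add ((rankOne_psd hl z).hadamard (red_psd hh z))

/-- the quadratic form of a Hadamard product -/
lemma Q_hadamard {N : ℕ} {p : Matrix X X ℂ} (hp : p.PosSemidef) (F : Finset X) :
    ∃ B : F → X → ℂ, ∀ (g : Matrix X X ℂ) (h : X → E N),
      Q (p ⊙ g) F h = ∑ m, Q g F (fun i => B m i • h i) := by
  classical
  obtain ⟨B, hB⟩ := exists_factor (hp.submatrix ((↑) : F → X))
  refine ⟨fun m x => if hx : x ∈ F then B m ⟨x, hx⟩ else 0, fun g h => ?_⟩
  have hpB : ∀ i (hi : i ∈ F) j (hj : j ∈ F), p i j = ∑ m, conj (B m ⟨i, hi⟩) * B m ⟨j, hj⟩ := by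
    intro i hi j hj
    have h1 := congrFun (congrFun hB ⟨i, hi⟩) ⟨j, hj⟩
    rw [Matrix.submatrix_apply, Matrix.mul_apply] at h1
    rw [h1]
    simp [Matrix.conjTranspose_apply]
  unfold Q
  rw [← Complex.re_sum]
  congr 1
  conv_rhs => rw [Finset.sum_comm]
  refine Finset.sum_congr rfl fun i hi => ?_
  conv_rhs => rw [Finset.sum_comm]
  refine Finset.sum_congr rfl fun j hj => ?_
  rw [Matrix.hadamard_apply, hpB i hi j hj, Finset.sum_mul, Finset.sum_mul]
  refine Finset.sum_congr rfl fun m _ => ?_
  simp only [dif_pos hi, dif_pos hj, inner_smul_left, inner_smul_right]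
  ring

lemma Q_sub {N : ℕ} (g g' : Matrix X X ℂ) (F : Finset X) (h : X → E N) :
    Q (g - g') F h = Q g F h - Q g' F h := by
  unfold Q
  rw [← Complex.sub_re, ← Finset.sum_sub_distrib]
  congr 1
  refine Finset.sum_congr rfl fun i _ => ?_
  rw [← Finset.sum_sub_distrib]
  refine Finset.sum_congr rfl fun j _ => ?_
  rw [Matrix.sub_apply]
  ring

/-- a certificate gives the one-point extension property -/
lemma onePoint_of_cert {k l : Matrix X X ℂ} (hc : Cert k l) (N : ℕ) : OnePoint N k l := by
  intro F z _ S hS h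
  obtain ⟨p, hp, h1, h2⟩ := hc z
  obtain ⟨B, hB⟩ := Q_hadamard (N := N) hp F
  have a1 := Q_nonneg h1 F h
  have a2 := Q_nonneg h2 F (fun i => S i (h i))
  rw [Q_sub] at a1 a2
  have a3 : Q (p ⊙ k) F (fun i => S i (h i)) ≤ Q (p ⊙ l) F h := by
    rw [hB, hB]
    refine Finset.sum_le_sum fun m _ => ?_
    have := hS (fun i => B m i • h i)
    simpa only [map_smul] using this
  linarith

end Q93.CPP
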