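import Pool.Agent.Results.MP_e3a8c8_an.ShimorinCertificates

/-!
Complete Pick pairs, with tuples of points.
-/

set_option autoImplicit false

namespace Q93.CPP

open Matrix
open scoped ComplexOrder
open Pool.Agent.Results.MP_e3a8c8_an.ShimorinCertificates (Kernel IsContractiveMultiplier)

universe u

/-- The block matrix `[l(z_i, z_j) I - k(z_i, z_j) W_i W_j^*]`, `i, j = 1, …, n`, written as a
scalar matrix indexed by pairs (index of the point, coordinate in `ℂ^N`). -/
noncomputable def pairMatrix {X : Type u} {n N : ℕ} (k l : Kernel X) (z : Fin n → X)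
    (W : Fin n → Matrix (Fin N) (Fin N) ℂ) : Matrix (Fin n × Fin N) (Fin n × Fin N) ℂ :=
  Matrix.of fun a b =>
    (l.fn (z a.1) (z b.1) • (1 : Matrix (Fin N) (Fin N) ℂ) -
      k.fn (z a.1) (z b.1) • (W a.1 * (W b.1)ᴴ)) a.2 b.2

/-- `(k, l)` is a complete Pick pair: for all `n, N ≥ 1`, all points `z_1, …, z_n` and all
`N × N` matrices `W_1, …, W_n` with positive semidefinite block matrix
`[l(z_i, z_j) I - k(z_i, z_j) W_i W_j^*]` there is a contractive multiplier `Φ` from `H_k ⊗ ℂ^N`
to `H_l ⊗ ℂ^N` with `Φ(z_i) = W_i` for all `i`. -/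
def IsCompletePickPair {X : Type u} (k l : Kernel X) : Prop :=
  ∀ n N : ℕ, 1 ≤ n → 1 ≤ N → ∀ (z : Fin n → X) (W : Fin n → Matrix (Fin N) (Fin N) ℂ),
    (pairMatrix k l z W).PosSemidef →
      ∃ Φ : X → Matrix (Fin N) (Fin N) ℂ, IsContractiveMultiplier k l Φ ∧ ∀ i, Φ (z i) = W i

/-- The pointwise product of two kernels; it is a kernel by the Schur product theorem. -/
noncomputable def mulKernel {X : Type u} (l h : Kernel X) : Kernel X :=
  ⟨Matrix.of fun x y => l.fn x y * h.fn x y, l.psd.hadamard h.psd⟩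

end Q93.CPP
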