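import Pool.Agent.Q93.CPP.Cert

/-!
From the one-point extension property to multipliers on the whole set.
-/

set_option autoImplicit false

namespace Q93.CPP

open Matrix
open scoped ComplexOrder ComplexConjugate InnerProductSpace
open Pool.Agent.Results.MP_e3a8c8_an.ShimorinCertificates
open Pool.Agent.H770R3.Shim

universe u

variable {X : Type u}

lemma Q_subset [DecidableEq X] {N : ℕ} (g : Matrix X X ℂ) {F G : Finset X} (hFG : F ⊆ G)
    {h : X → E N} (h0 : ∀ i ∈ G, i ∉ F → h i = 0) : Q g G h = Q g F h := by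
  unfold Q
  congr 1
  symm
  rw [← Finset.sum_subset hFG]
  · refine Finset.sum_congr rfl fun i _ => ?_
    rw [← Finset.sum_subset hFG]
    intro j hj hj'
    rw [h0 j hj hj', inner_zero_right, mul_zero]
  · intro i hi hi'
    exact Finset.sum_eq_zero fun j _ => by rw [h0 i hi hi', inner_zero_left, mul_zero]

/-- the inequality on a finite set restricts to subsets -/
lemma ineq_mono [DecidableEq X] {N : ℕ} {k l : Matrix X X ℂ} {F G : Finset X} (hFG : F ⊆ G)
    {S : X → E N →ₗ[ℂ] E N} (hS : ∀ h : X → E N, Q k G (fun i => S i (h i)) ≤ Q l G h)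
    (h : X → E N) : Q k F (fun i => S i (h i)) ≤ Q l F h := by
  let h' : X → E N := fun i => if i ∈ F then h i else 0
  have h1 := hS h'
  rw [Q_subset k hFG (h := fun i => S i (h' i)) (fun i _ hi => by simp [h', hi]),
    Q_subset l hFG (h := h') (fun i _ hi => by simp [h', hi])] at h1
  have e1 : Q k F (fun i => S i (h' i)) = Q k F (fun i => S i (h i)) :=
    Q_congr _ fun i hi => by simp [h', hi]
  have e2 : Q l F h' = Q l F h := Q_congr _ fun i hi => by simp [h', hi]
  rwa [e1, e2] at h1

lemma pos_diag {k : Kernel X} (hk : ∀ x, k.fn x x ≠ 0) (x : X) : 0 < (k.fn x x).re := by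
  have h1 := psd_diag_re k.psd x
  have h2 := psd_diag_eq k.psd x
  refine lt_of_le_of_ne h1 fun h3 => hk x ?_
  rw [h2, ← h3]
  simp

lemma Q_singleton [DecidableEq X] {N : ℕ} (g : Matrix X X ℂ) (x : X) (h : X → E N) :
    Q g {x} h = (g x x).re * ‖h x‖ ^ 2 := by
  unfold Q
  rw [Finset.sum_singleton, Finset.sum_singleton, inner_self_eq_norm_sq_to_K]
  have : ((‖h x‖ : ℂ) ^ 2) = ((‖h x‖ ^ 2 : ℝ) : ℂ) := by push_cast; rfl
  erw [this, Complex.re_mul_ofReal]

/-- the one-point extension property makes `(k, l)` a complete Pick pair -/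
theorem cpPair_of_onePoint {k l : Kernel X} (hk : ∀ x, k.fn x x ≠ 0)
    (hOP : ∀ N, OnePoint N k.fn l.fn) : IsCPPair k l := by
  classical
  intro N _ F _ W hP
  have hQ := (pick_iff F W).mp hP
  -- finite extension
  have hfin : ∀ G : Finset X, F ⊆ G → ∃ S : X → E N →ₗ[ℂ] E N, (∀ i ∈ F, S i = adjMap W i) ∧
      ∀ h : X → E N, Q k.fn G (fun i => S i (h i)) ≤ Q l.fn G h := by
    intro G hFG
    obtain ⟨S, hS1, hS2⟩ := tnp k.psd l.psd (hOP N) G.card G rfl
      (fun i => if i ∈ F then ⊤ else ⊥) (adjMap W) (by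
        intro h hh
        have h0 : ∀ i ∈ G, i ∉ F → h i = 0 := by
          intro i hi hi'
          have := hh i hi
          rw [if_neg hi'] at this
          exact (Submodule.mem_bot ℂ).1 this
        rw [Q_subset k.fn hFG (h := fun i => adjMap W i (h i))
          (fun i hi hi' => by rw [h0 i hi hi', map_zero]), Q_subset l.fn hFG h0]
        exact hQ h)
    refine ⟨S, fun i hi => LinearMap.ext fun v => hS1 i (hFG hi) v ?_, hS2⟩
    rw [if_pos hi]
    exact Submodule.mem_top
  -- the compact set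
  let R : X → ℝ := fun x => Real.sqrt ((l.fn x x).re / (k.fn x x).re)
  have hbound : ∀ (S : X → E N →ₗ[ℂ] E N) (x : X),
      (∀ h : X → E N, Q k.fn {x} (fun i => S i (h i)) ≤ Q l.fn {x} h) →
      ∀ v, ‖S x v‖ ≤ R x * ‖v‖ := by
    intro S x hS v
    have h1 := hS (fun _ => v)
    rw [Q_singleton, Q_singleton] at h1
    have hkx := pos_diag hk x
    have h2 : ‖S x v‖ ^ 2 ≤ ((l.fn x x).re / (k.fn x x).re) * ‖v‖ ^ 2 := by
      rw [div_mul_eq_mul_div, le_div_iff₀ hkx]
      linarith
    have h3 : 0 ≤ (l.fn x x).re / (k.fn x x).re := div_nonneg (psd_diag_re l.psd x) hkx.le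
    rw [← sq_le_sq₀ (norm_nonneg _) (by positivity), mul_pow, Real.sq_sqrt h3]
    exact h2
  let K : Set (X → E N →L[ℂ] E N) := Set.pi Set.univ fun x => Metric.closedBall 0 (R x)
  have hK : IsCompact K := isCompact_univ_pi fun x => by
    have : ProperSpace (E N →L[ℂ] E N) := FiniteDimensional.proper ℂ _
    exact isCompact_closedBall _ _
  let C : Finset X → Set (X → E N →L[ℂ] E N) := fun G =>
    {S | (∀ i ∈ F, ∀ v, S i v = adjMap W i v) ∧
      ∀ h : X → E N, Q k.fn G (fun i => S i (h i)) ≤ Q l.fn G h}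
  have hCclosed : ∀ G, IsClosed (C G) := by
    intro G
    have : C G = (⋂ i ∈ F, ⋂ v, {S : X → E N →L[ℂ] E N | S i v = adjMap W i v}) ∩
        ⋂ h : X → E N, {S : X → E N →L[ℂ] E N | Q k.fn G (fun i => S i (h i)) ≤ Q l.fn G h} := by
      ext S
      simp [C]
    rw [this]
    refine IsClosed.inter ?_ ?_
    · refine isClosed_iInter fun i => isClosed_iInter fun _ => isClosed_iInter fun v => ?_
      exact isClosed_eq (by fun_prop) continuous_const
    · refine isClosed_iInter fun h => ?_
      refine isClosed_le ?_ continuous_const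
      unfold Q
      refine Complex.continuous_re.comp ?_
      refine continuous_finsetSum _ fun i _ => continuous_finsetSum _ fun j _ => ?_
      fun_prop
  have hne : (K ∩ ⋂ G, C G).Nonempty := by
    refine hK.inter_iInter_nonempty C hCclosed fun u => ?_
    let G : Finset X := F ∪ u.biUnion id
    obtain ⟨S, hS1, hS2⟩ := hfin G Finset.subset_union_left
    let S' : X → E N →L[ℂ] E N := fun x => if x ∈ G then LinearMap.toContinuousLinearMap (S x) else 0
    have hS'G : ∀ x ∈ G, ∀ v, S' x v = S x v := by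
      intro x hx v
      simp [S', hx]
    refine ⟨S', ?_, ?_⟩
    · rw [Set.mem_univ_pi]
      intro x
      rw [mem_closedBall_zero_iff]
      by_cases hx : x ∈ G
      · refine ContinuousLinearMap.opNorm_le_bound _ (Real.sqrt_nonneg _) fun v => ?_
        rw [hS'G x hx]
        exact hbound S x (ineq_mono (Finset.singleton_subset_iff.2 hx) hS2) v
      · simp only [S', if_neg hx, norm_zero]
        exact Real.sqrt_nonneg _
    · rw [Set.mem_iInter₂]
      intro G' hG'
      have hsub : G' ⊆ G := (Finset.subset_biUnion_of_mem id hG').trans Finset.subset_union_right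
      refine ⟨fun i hi v => ?_, fun h => ?_⟩
      · rw [hS'G i (Finset.mem_union_left _ hi), hS1 i hi]
      · have e : Q k.fn G' (fun i => S' i (h i)) = Q k.fn G' (fun i => S i (h i)) :=
          Q_congr _ fun i hi => hS'G i (hsub hi) _
        rw [e]
        exact ineq_mono hsub hS2 h
  obtain ⟨S, -, hS⟩ := hne
  rw [Set.mem_iInter] at hS
  let Φ : X → Matrix (Fin N) (Fin N) ℂ := fun x =>
    (Matrix.toEuclideanLin.symm (S x : E N →ₗ[ℂ] E N))ᴴ
  have hΦ : ∀ x, adjMap Φ x = (S x : E N →ₗ[ℂ] E N) := by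
    intro x
    simp only [adjMap, Φ, Matrix.conjTranspose_conjTranspose, LinearEquiv.apply_symm_apply]
  refine ⟨Φ, multiplier_of_Q fun G h => ?_, fun x hx => ?_⟩
  · simp only [hΦ]
    exact (hS G).2 h
  · have h1 : Matrix.toEuclideanLin (Φ x)ᴴ = Matrix.toEuclideanLin (W x)ᴴ := by
      have h2 := hΦ x
      simp only [adjMap] at h2
      rw [h2]
      exact LinearMap.ext fun v => (hS ∅).1 x hx v
    exact Matrix.conjTranspose_injective (Matrix.toEuclideanLin.injective h1)

/-- multiplying the second kernel preserves complete Pick pairs -/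
theorem main (k l h : Kernel X) (hk : ∀ x, k.fn x x ≠ 0) (hl : ∀ x, l.fn x x ≠ 0)
    (hcp : IsCompletePickPair k l) : IsCompletePickPair k (mulKernel l h) := by
  have h1 : IsCPPair k l := isCPPair_of hcp
  have h2 : Cert k.fn l.fn := fun z =>
    cert k.psd l.psd (fun x hx => absurd hx (hl x)) (onePoint_of_cp h1) z
  have h3 : Cert k.fn (mulKernel l h).fn := cert_mul l.psd h.psd h2
  exact of_isCPPair hk (cpPair_of_onePoint hk (onePoint_of_cert h3))

end Q93.CPP
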