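import Pool.Agent.Q93.CPP.Defs

/-!
Complete Pick pairs: tuples of points and finite sets of points.
-/

set_option autoImplicit false

namespace Q93.CPP

open Matrix
open scoped ComplexOrder ComplexConjugate
open Pool.Agent.Results.MP_e3a8c8_an.ShimorinCertificates
open Pool.Agent.H770R3.Shim

universe u

variable {X : Type u}

lemma isCPPair_of {k l : Kernel X} (h : IsCompletePickPair k l) : IsCPPair k l := by
  intro N hN F hF W hW
  set e := F.equivFin with he
  obtain ⟨Φ, h1, h2⟩ := h F.card N (Finset.card_pos.2 hF) hN (fun i => (e.symm i : X))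
    (fun i => W (e.symm i : X)) (hW.submatrix fun b : Fin F.card × Fin N => (e.symm b.1, b.2))
  refine ⟨Φ, h1, fun x hx => ?_⟩
  have := h2 (e ⟨x, hx⟩)
  simpa using this

lemma psd_pair {ι : Type*} {P : Matrix ι ι ℂ} (hP : P.PosSemidef) (x y : ι) (hxy : x ≠ y) :
    0 ≤ (P x x - P x y - P y x + P y y).re := by
  classical
  have h := psd_sum hP {x, y} (fun i => if i = x then 1 else -1)
  have e : (∑ i ∈ ({x, y} : Finset ι), ∑ j ∈ ({x, y} : Finset ι),
      conj (if i = x then (1 : ℂ) else -1) * P i j * (if j = x then (1 : ℂ) else -1)) =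
      P x x - P x y - P y x + P y y := by
    rw [Finset.sum_pair hxy, Finset.sum_pair hxy, Finset.sum_pair hxy]
    simp only [if_pos, if_neg hxy.symm, map_one, map_neg]
    ring
  rw [e] at h
  exact h

/-- data at the same point coincide -/
lemma eq_of_same {n N : ℕ} {k l : Kernel X} (hk : ∀ x, k.fn x x ≠ 0) {z : Fin n → X}
    {W : Fin n → Matrix (Fin N) (Fin N) ℂ} (hP : (pairMatrix k l z W).PosSemidef) {i j : Fin n}
    (hij : z i = z j) : W i = W j := by
  classical
  by_cases hne : i = j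
  · rw [hne]
  have hkp : 0 < (k.fn (z j) (z j)).re := by
    have h1 := psd_diag_re k.psd (z j)
    have h2 := psd_diag_eq k.psd (z j)
    refine lt_of_le_of_ne h1 fun h3 => hk (z j) ?_
    rw [h2, ← h3]
    simp
  ext a c
  have h := psd_pair hP (i, a) (j, a) (by simp [hne])
  have e : (pairMatrix k l z W (i, a) (i, a) - pairMatrix k l z W (i, a) (j, a)
      - pairMatrix k l z W (j, a) (i, a) + pairMatrix k l z W (j, a) (j, a)) =
      -(k.fn (z j) (z j)) * ∑ c, ((‖W i a c - W j a c‖ ^ 2 : ℝ) : ℂ) := by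
    have h3 : ∀ c, ((‖W i a c - W j a c‖ ^ 2 : ℝ) : ℂ) =
        (W i a c - W j a c) * conj (W i a c - W j a c) := by
      intro c
      rw [Complex.mul_conj, Complex.normSq_eq_norm_sq]
    simp only [h3]
    simp only [pairMatrix, Matrix.of_apply, Matrix.sub_apply, Matrix.smul_apply, smul_eq_mul,
      Matrix.mul_apply, Matrix.conjTranspose_apply, hij, Matrix.one_apply_eq, RCLike.star_def]
    simp only [mul_sub, map_sub, sub_mul, Finset.sum_sub_distrib]
    ring
  have h4 : (-(k.fn (z j) (z j)) * ∑ c, ((‖W i a c - W j a c‖ ^ 2 : ℝ) : ℂ)).re =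
      -((k.fn (z j) (z j)).re * ∑ c, ‖W i a c - W j a c‖ ^ 2) := by
    rw [← Complex.ofReal_sum, Complex.re_mul_ofReal, Complex.neg_re, neg_mul]
  rw [e, h4] at h
  have h5 : ∑ c, ‖W i a c - W j a c‖ ^ 2 ≤ 0 := by
    by_contra hcon
    push Not at hcon
    have := mul_pos hkp hcon
    linarith
  have h6 : ‖W i a c - W j a c‖ ^ 2 ≤ ∑ c, ‖W i a c - W j a c‖ ^ 2 :=
    Finset.single_le_sum (f := fun c => ‖W i a c - W j a c‖ ^ 2) (fun _ _ => by positivity)
      (Finset.mem_univ c)
  have h7 : ‖W i a c - W j a c‖ ^ 2 = 0 := le_antisymm (h6.trans h5) (by positivity)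
  exact sub_eq_zero.1 (norm_eq_zero.1 (pow_eq_zero_iff (two_ne_zero) |>.1 h7))

lemma of_isCPPair {k l : Kernel X} (hk : ∀ x, k.fn x x ≠ 0) (h : IsCPPair k l) :
    IsCompletePickPair k l := by
  classical
  intro n N hn hN z W hP
  set F : Finset X := Finset.univ.image z with hF
  have : Nonempty (Fin n) := ⟨⟨0, hn⟩⟩
  have hFne : F.Nonempty := Finset.univ_nonempty.image z
  have hex : ∀ x ∈ F, ∃ i, z i = x := by
    intro x hx
    obtain ⟨i, -, hi⟩ := Finset.mem_image.1 hx
    exact ⟨i, hi⟩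
  choose! σ hσ using hex
  obtain ⟨Φ, h1, h2⟩ := h N hN F hFne (fun x => W (σ x)) (by
    have := hP.submatrix fun b : F × Fin N => (σ (b.1 : X), b.2)
    convert this using 1
    ext a b
    simp only [pickMatrix, pairMatrix, Matrix.of_apply, Matrix.submatrix_apply,
      hσ _ a.1.2, hσ _ b.1.2])
  refine ⟨Φ, h1, fun i => ?_⟩
  have hi : z i ∈ F := Finset.mem_image_of_mem z (Finset.mem_univ i)
  rw [h2 _ hi]
  exact eq_of_same hk hP (hσ _ hi)

end Q93.CPP
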